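import Mathlib

namespace Pool.Agent.H.MP_4c8f29_co

variable {S : Type*} [CommSemiring S]

/-- compatible proper preorders -/
structure Good (R : S → S → Prop) : Prop where
  refl : ∀ a, R a a
  trans : ∀ a b c, R a b → R b c → R a c
  add : ∀ a b c, R a b → R (a + c) (b + c)
  mul : ∀ a b c, R a b → R (a * c) (b * c)
  zero : ∀ a, R 0 a
  arch : ∀ a, ∃ n : ℕ, R a n
  nz : ∀ a, a = 0 ∨ R 1 a
  proper : ∀ n : ℕ, ¬ R ((n : S) + 1) n

namespace Good
variable {R : S → S → Prop}

theorem add2 (h : Good R) {a b c d : S} (h1 : R a b) (h2 : R c d) : R (a + c) (b + d) := by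
  refine h.trans _ (b + c) _ (h.add _ _ _ h1) ?_
  have := h.add _ _ b h2
  rwa [add_comm c, add_comm d] at this

theorem mul2 (h : Good R) {a b c d : S} (h1 : R a b) (h2 : R c d) : R (a * c) (b * d) := by
  refine h.trans _ (b * c) _ (h.mul _ _ _ h1) ?_
  have := h.mul _ _ b h2
  rwa [mul_comm c, mul_comm d] at this

theorem le_add (h : Good R) (a b : S) : R a (a + b) := by
  have := h.add2 (h.refl a) (h.zero b)
  rwa [add_zero] at this

theorem of_eq (h : Good R) {a b c d : S} (h1 : R a b) (e1 : c = a) (e2 : d = b) : R c d := by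
  rw [e1, e2]; exact h1

theorem nat_le (h : Good R) {m n : ℕ} (hmn : m ≤ n) : R (m : S) n := by
  obtain ⟨k, rfl⟩ := Nat.exists_eq_add_of_le hmn
  push_cast
  exact h.le_add _ _

theorem le_nat (h : Good R) {m n : ℕ} (hmn : R (m : S) n) : m ≤ n := by
  by_contra hc
  push Not at hc
  apply h.proper n
  have := h.nat_le (show n + 1 ≤ m from hc)
  push_cast at this
  exact h.trans _ _ _ this hmn

/-- cancellation closure -/
theorem canc (h : Good R) : Good (fun x y => ∃ s t, R 1 s ∧ R (x * s + t) (y * s + t)) where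
  refl a := ⟨1, 0, h.refl _, h.refl _⟩
  trans a b c := by
    rintro ⟨s, t, hs, h1⟩ ⟨s', t', hs', h2⟩
    refine ⟨s * s', t * s' + t' * s, by simpa using h.mul2 hs hs', ?_⟩
    have e1 := h.add _ _ (t' * s) (h.mul _ _ s' h1)
    have e2 := h.add _ _ (t * s') (h.mul _ _ s h2)
    refine h.trans _ (b * (s * s') + (t * s' + t' * s)) _ (h.of_eq e1 (by ring) (by ring))
      (h.of_eq e2 (by ring) (by ring))
  add a b c := by
    rintro ⟨s, t, hs, h1⟩
    exact ⟨s, t, hs, h.of_eq (h.add _ _ (c * s) h1) (by ring) (by ring)⟩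
  mul a b c := by
    rintro ⟨s, t, hs, h1⟩
    exact ⟨s, t * c, hs, h.of_eq (h.mul _ _ c h1) (by ring) (by ring)⟩
  zero a := ⟨1, 0, h.refl _, by simpa using h.zero a⟩
  arch a := by
    obtain ⟨n, hn⟩ := h.arch a
    exact ⟨n, 1, 0, h.refl _, by simpa using hn⟩
  nz a := by
    rcases h.nz a with h0 | h1
    · exact Or.inl h0
    · exact Or.inr ⟨1, 0, h.refl _, by simpa using h1⟩
  proper n := by
    rintro ⟨s, t, hs, h1⟩
    have h2 : R (1 + (n * s + t)) (n * s + t) :=
      h.trans _ _ _ (h.add _ _ _ hs) (h.of_eq h1 (by ring) rfl)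
    have h3 : ∀ k : ℕ, R (k + (n * s + t)) (n * s + t) := by
      intro k
      induction k with
      | zero => simpa using h.refl _
      | succ k ih =>
        refine h.trans _ _ _ ?_ h2
        exact h.of_eq (h.add _ _ 1 ih) (by push_cast; ring) (by ring)
    obtain ⟨r, hr⟩ := h.arch (n * s + t)
    have := h.le_nat (h.trans _ _ _ (h.le_add ((r + 1 : ℕ) : S) _) (h.trans _ _ _ (h3 (r + 1)) hr))
    omega

/-- extension forcing `B ≤ A` -/
theorem ext (h : Good R) (A B : S)
    (hp : ∀ (n : ℕ) (s : S), ¬ R ((n : S) + 1 + s * A) (n + s * B)) :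
    Good (fun x y => ∃ s, R (x + s * A) (y + s * B)) where
  refl a := ⟨0, by simpa using h.refl a⟩
  trans a b c := by
    rintro ⟨s, h1⟩ ⟨s', h2⟩
    refine ⟨s + s', h.trans _ (b + s * B + s' * A) _ (h.of_eq (h.add _ _ (s' * A) h1) (by ring) rfl)
      (h.of_eq (h.add _ _ (s * B) h2) (by ring) (by ring))⟩
  add a b c := by
    rintro ⟨s, h1⟩
    exact ⟨s, h.of_eq (h.add _ _ c h1) (by ring) (by ring)⟩
  mul a b c := by
    rintro ⟨s, h1⟩
    exact ⟨s * c, h.of_eq (h.mul _ _ c h1) (by ring) (by ring)⟩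
  zero a := ⟨0, by simpa using h.zero a⟩
  arch a := by
    obtain ⟨n, hn⟩ := h.arch a
    exact ⟨n, 0, by simpa using hn⟩
  nz a := by
    rcases h.nz a with h0 | h1
    · exact Or.inl h0
    · exact Or.inr ⟨0, by simpa using h1⟩
  proper n := by
    rintro ⟨s, h1⟩
    exact hp n s h1

theorem exists_total (h : Good R) :
    ∃ T : S → S → Prop, Good T ∧ (∀ a b, R a b → T a b) ∧ ∀ a b, T a b ∨ T b a := by
  obtain ⟨T, hRT, hT⟩ := zorn_le_nonempty₀ {T : S → S → Prop | Good T} (by
    intro c hc hch y hy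
    refine ⟨fun a b => ∃ T ∈ c, T a b, ?_, fun z hz a b hab => ⟨z, hz, hab⟩⟩
    have gy : Good y := hc hy
    refine ⟨fun a => ⟨y, hy, gy.refl a⟩, ?_, ?_, ?_, fun a => ⟨y, hy, gy.zero a⟩, ?_, ?_, ?_⟩
    · rintro a b d ⟨T1, h1, e1⟩ ⟨T2, h2, e2⟩
      rcases hch.total h1 h2 with h3 | h3
      · exact ⟨T2, h2, (hc h2 : Good T2).trans _ _ _ (h3 _ _ e1) e2⟩
      · exact ⟨T1, h1, (hc h1 : Good T1).trans _ _ _ e1 (h3 _ _ e2)⟩
    · rintro a b d ⟨T1, h1, e1⟩
      exact ⟨T1, h1, (hc h1 : Good T1).add _ _ _ e1⟩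
    · rintro a b d ⟨T1, h1, e1⟩
      exact ⟨T1, h1, (hc h1 : Good T1).mul _ _ _ e1⟩
    · intro a
      obtain ⟨n, hn⟩ := gy.arch a
      exact ⟨n, y, hy, hn⟩
    · intro a
      rcases gy.nz a with h0 | h1
      · exact Or.inl h0
      · exact Or.inr ⟨y, hy, h1⟩
    · rintro n ⟨T1, h1, e1⟩
      exact (hc h1 : Good T1).proper n e1) R h
  have gT : Good T := hT.prop
  have hc : ∀ x y s t, T 1 s → T (x * s + t) (y * s + t) → T x y := by
    intro x y s t h1 h2
    have := hT.le_of_ge (y := fun x y => ∃ s t, T 1 s ∧ T (x * s + t) (y * s + t)) gT.canc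
      (fun a b hab => ⟨1, 0, gT.refl _, by simpa using hab⟩)
    exact this x y ⟨s, t, h1, h2⟩
  refine ⟨T, gT, hRT, fun a b => ?_⟩
  by_contra hn
  push Not at hn
  have g2 := gT.ext a b (by
    intro n s h1
    have h2 : T (1 + s * a) (s * b) :=
      hc _ _ 1 n (gT.refl _) (gT.of_eq h1 (by ring) (by ring))
    rcases gT.nz s with h0 | h3
    · subst h0
      apply gT.proper 0
      simpa using h2
    · apply hn.1
      refine hc _ _ s 0 h3 (gT.of_eq (gT.trans _ _ _ (gT.le_add (s * a) 1)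
        (gT.of_eq h2 (by ring) rfl)) (by ring) (by ring)))
  have := hT.le_of_ge (y := fun x y => ∃ s, T (x + s * a) (y + s * b)) g2
      (fun x y hab => ⟨0, by simpa using hab⟩)
  exact hn.2 (this b a ⟨1, gT.of_eq (gT.refl (a + b)) (by ring) (by ring)⟩)

theorem le_of_forall (x y C : ℝ) (h : ∀ s : ℕ, 0 < s → x ≤ y + C / s) : x ≤ y := by
  by_contra hc
  push Not at hc
  obtain ⟨s, hs⟩ := exists_nat_gt (|C| / (x - y))
  have hxy : 0 < x - y := by linarith
  have hs0 : (0 : ℝ) < s := lt_of_le_of_lt (by positivity) hs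
  have := h s (by exact_mod_cast hs0)
  rw [div_lt_iff₀ hxy] at hs
  have h2 : C / s < x - y := by
    rw [div_lt_iff₀ hs0]
    have := le_abs_self C
    nlinarith
  linarith

theorem exists_phi (h : Good R) : ∃ φ : S → ℝ, (∀ a, 0 ≤ φ a) ∧ (∀ n : ℕ, φ n = n) ∧
    (∀ a b, R a b → φ a ≤ φ b) ∧ (∀ a b, φ (a + b) = φ a + φ b) ∧
    (∀ a b, φ (a * b) = φ a * φ b) := by
  classical
  obtain ⟨T, g, hRT, tot⟩ := h.exists_total
  let Q : S → Set ℝ := fun a => {x | ∃ r s : ℕ, 0 < s ∧ T (s * a) r ∧ x = (r : ℝ) / s}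
  have Qne : ∀ a, (Q a).Nonempty := fun a => by
    obtain ⟨n, hn⟩ := g.arch a
    exact ⟨_, n, 1, one_pos, by simpa using hn, rfl⟩
  have Qpos : ∀ a, ∀ x ∈ Q a, 0 ≤ x := by
    rintro a x ⟨r, s, _, _, rfl⟩
    positivity
  let φ : S → ℝ := fun a => sInf (Q a)
  have up : ∀ a (r s : ℕ), 0 < s → T (s * a) r → φ a ≤ (r : ℝ) / s := fun a r s hs h1 =>
    csInf_le ⟨0, Qpos a⟩ ⟨r, s, hs, h1, rfl⟩
  have lo : ∀ a (r s : ℕ), 0 < s → T r (s * a) → (r : ℝ) / s ≤ φ a := by
    intro a r s hs h1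
    refine le_csInf (Qne a) ?_
    rintro x ⟨r', s', hs', h2, rfl⟩
    have h3 : T ((r * s' : ℕ) : S) ((r' * s : ℕ) : S) := by
      push_cast
      exact g.trans _ _ _ (g.mul _ _ _ h1) (g.of_eq (g.mul _ _ s h2) (by ring) rfl)
    have h4 : ((r * s' : ℕ) : ℝ) ≤ ((r' * s : ℕ) : ℝ) := by exact_mod_cast g.le_nat h3
    push_cast at h4
    rw [div_le_div_iff₀ (by exact_mod_cast hs) (by exact_mod_cast hs')]
    exact h4
  have pos : ∀ a, 0 ≤ φ a := fun a => le_csInf (Qne a) (Qpos a)
  have key : ∀ a (s : ℕ), ∃ l : ℕ, T l (s * a) ∧ T (s * a) (l + 1 : ℕ) := by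
    intro a s
    have ex : ∃ n : ℕ, T (s * a) n := g.arch _
    have h1 := Nat.find_spec ex
    rcases Nat.eq_zero_or_pos (Nat.find ex) with h0 | h0
    · refine ⟨0, by simpa using g.zero _, g.trans _ _ _ h1 (g.nat_le (by omega))⟩
    · refine ⟨Nat.find ex - 1, ?_, by rwa [Nat.sub_add_cancel h0]⟩
      have := Nat.find_min ex (show Nat.find ex - 1 < Nat.find ex by omega)
      exact (tot _ _).resolve_left this
  refine ⟨φ, pos, fun n => ?_, fun a b hab => ?_, fun a b => ?_, fun a b => ?_⟩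
  · have h1 := up n n 1 one_pos (by simpa using g.refl _)
    have h2 := lo n n 1 one_pos (by simpa using g.refl _)
    simp only [Nat.cast_one, div_one] at h1 h2
    linarith
  · refine le_csInf (Qne b) ?_
    rintro x ⟨r, s, hs, h2, rfl⟩
    exact up a r s hs (g.trans _ _ _ (g.mul2 (g.refl _) (hRT _ _ hab)) h2)
  · have main : ∀ s : ℕ, 0 < s → φ (a + b) ≤ φ a + φ b + 2 / s ∧ φ a + φ b ≤ φ (a + b) + 2 / s := by
      intro s hs
      obtain ⟨l, l1, l2⟩ := key a s
      obtain ⟨m, m1, m2⟩ := key b s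
      have a1 := up a _ s hs l2
      have a2 := lo a _ s hs l1
      have b1 := up b _ s hs m2
      have b2 := lo b _ s hs m1
      have c1 := up (a + b) (l + 1 + (m + 1)) s hs
        (g.of_eq (g.add2 l2 m2) (by ring) (by push_cast; ring))
      have c2 := lo (a + b) (l + m) s hs
        (g.of_eq (g.add2 l1 m1) (by push_cast; ring) (by ring))
      push_cast at *
      simp only [add_div] at *
      have : (2 : ℝ) / s = 1 / s + 1 / s := by ring
      constructor <;> linarith
    exact le_antisymm (le_of_forall _ _ 2 fun s hs => (main s hs).1)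
      (le_of_forall _ _ 2 fun s hs => (main s hs).2)
  · have main : ∀ s : ℕ, 0 < s → φ (a * b) ≤ φ a * φ b + (φ a + φ b + 1) / s ∧
        φ a * φ b ≤ φ (a * b) + (φ a + φ b + 1) / s := by
      intro s hs
      obtain ⟨l, l1, l2⟩ := key a s
      obtain ⟨m, m1, m2⟩ := key b s
      have a1 := up a _ s hs l2
      have a2 := lo a _ s hs l1
      have b1 := up b _ s hs m2
      have b2 := lo b _ s hs m1
      have c1 := up (a * b) ((l + 1) * (m + 1)) (s * s) (Nat.mul_pos hs hs)
        (g.of_eq (g.mul2 l2 m2) (by push_cast; ring) (by push_cast; ring))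
      have c2 := lo (a * b) (l * m) (s * s) (Nat.mul_pos hs hs)
        (g.of_eq (g.mul2 l1 m1) (by push_cast; ring) (by push_cast; ring))
      have hs1 : (1 : ℝ) ≤ s := by exact_mod_cast hs
      have hs0 : (0 : ℝ) < s := by linarith
      push_cast at *
      set e : ℝ := 1 / s with he
      have e0 : 0 < e := by positivity
      have e1 : e ≤ 1 := by rw [he, div_le_one hs0]; exact hs1
      have hd : ∀ x : ℝ, x / s = x * e := fun x => by rw [he]; ring
      have hd2 : ∀ x y : ℝ, x * y / (s * s) = (x * e) * (y * e) := fun x y => by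
        rw [he]; field_simp
      rw [hd2] at c1 c2
      rw [hd] at a1 a2 b1 b2
      rw [hd]
      have pa := pos a
      have pb := pos b
      have l0 : 0 ≤ (l : ℝ) * e := by positivity
      have m0 : 0 ≤ (m : ℝ) * e := by positivity
      set u := (l : ℝ) * e
      set v := (m : ℝ) * e
      have ea : ((l : ℝ) + 1) * e = u + e := by ring
      have eb : ((m : ℝ) + 1) * e = v + e := by ring
      rw [ea] at a1 c1
      rw [eb] at b1 c1
      have t1 : (u + e) * (v + e) ≤ (φ a + e) * (φ b + e) :=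
        mul_le_mul (by linarith) (by linarith) (by linarith) (by linarith)
      have t2 : φ a * φ b ≤ (u + e) * (v + e) :=
        mul_le_mul a1 b1 pb (by linarith)
      have t3 : e * e ≤ e := by nlinarith
      have t4 : u * e ≤ φ a * e := by nlinarith
      have t5 : v * e ≤ φ b * e := by nlinarith
      constructor <;> nlinarith
    exact le_antisymm (le_of_forall _ _ _ fun s hs => (main s hs).1)
      (le_of_forall _ _ _ fun s hs => (main s hs).2)

/-- asymptotic cancellation -/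
theorem asym (h : Good R) (X Y s : S) (n : ℕ) (hY : R 1 Y)
    (h1 : R ((n : S) + 1 + s * X) (n + s * Y)) :
    ∃ r : ℕ, ∀ m k : ℕ, R ((m * X) ^ k) (r * ((m + n : ℕ) * Y) ^ k) := by
  rcases h.nz s with h0 | hs
  · subst h0
    exact absurd (by simpa using h1) (h.proper n)
  have h2 : R (n + s * X) (n + s * Y) :=
    h.trans _ _ _ (h.of_eq (h.le_add (n + s * X) 1) rfl (by ring)) h1
  have h3 : ∀ m : ℕ, R (n + m * (s * X)) (n + m * (s * Y)) := by
    intro m
    induction m with
    | zero => simpa using h.refl _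
    | succ m ih =>
      refine h.trans _ (n + m * (s * Y) + s * X) _
        (h.of_eq (h.add _ _ (s * X) ih) (by push_cast; ring) rfl)
        (h.of_eq (h.add _ _ (m * (s * Y)) h2) (by ring) (by push_cast; ring))
  have h4 : ∀ m : ℕ, R (s * (m * X)) (s * ((m + n : ℕ) * Y)) := by
    intro m
    have e1 : R (n : S) (n * (s * Y)) := by
      simpa using h.mul2 (h.refl (n : S)) (h.mul2 hs hY)
    refine h.trans _ _ _ (h.of_eq (h.le_add (m * (s * X)) n) (by ring) (add_comm _ _)) ?_
    refine h.trans _ _ _ (h3 m) ?_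
    exact h.of_eq (h.add _ _ (m * (s * Y)) e1) rfl (by push_cast; ring)
  obtain ⟨r, hr⟩ := h.arch s
  refine ⟨r, fun m k => ?_⟩
  have h5 : R (s * (m * X) ^ k) (s * ((m + n : ℕ) * Y) ^ k) := by
    induction k with
    | zero => simpa using h.refl _
    | succ k ih =>
      refine h.trans _ (s * ((m + n : ℕ) * Y) ^ k * (m * X)) _
        (h.of_eq (h.mul _ _ (m * X) ih) (by ring) rfl)
        (h.of_eq (h.mul _ _ (((m + n : ℕ) * Y) ^ k) (h4 m)) (by ring) (by ring))
  refine h.trans _ _ _ ?_ (h.trans _ _ _ h5 (h.mul _ _ _ hr))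
  simpa using h.mul _ _ ((m * X) ^ k) hs

end Good

end Pool.Agent.H.MP_4c8f29_co
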