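import Mathlib

namespace Pool.Agent.H.MP_4c8f29_co
open Finset

theorem gram_pow {W I : Type*} [Fintype W] [Fintype I] [DecidableEq I] (c : I → ℝ)
    (hc : ∀ i, 0 ≤ c i) (u : I → W → ℝ) (i0 : I) (hu : ∀ x, u i0 x = 1) (L : W → W → ℝ)
    (hL : ∀ x y, L x y = ∑ i, c i * u i x * u i y) (n : ℕ) (U : Finset (Fin n → W)) :
    c i0 ^ n * (U.card : ℝ) ^ 2 ≤ ∑ x ∈ U, ∑ y ∈ U, ∏ k, L (x k) (y k) := by
  have e : ∑ x ∈ U, ∑ y ∈ U, ∏ k, L (x k) (y k) =
      ∑ a : Fin n → I, (∏ k, c (a k)) * (∑ x ∈ U, ∏ k, u (a k) (x k)) ^ 2 := by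
    simp only [hL, Finset.prod_univ_sum, Fintype.piFinset_univ]
    simp only [sq, sum_mul_sum]
    simp only [mul_sum]
    rw [sum_comm (s := univ)]
    refine sum_congr rfl fun x _ => ?_
    rw [sum_comm (s := univ)]
    refine sum_congr rfl fun y _ => sum_congr rfl fun a _ => ?_
    simp only [prod_mul_distrib]
    ring
  rw [e]
  have := single_le_sum (s := (univ : Finset (Fin n → I)))
    (f := fun a => (∏ k, c (a k)) * (∑ x ∈ U, ∏ k, u (a k) (x k)) ^ 2)
    (fun a _ => mul_nonneg (prod_nonneg fun k _ => hc _) (sq_nonneg _)) (mem_univ fun _ => i0)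
  simpa [hu] using this

def g5 : SimpleGraph (Fin 5) := SimpleGraph.cycleGraph 5

instance : DecidableRel g5.Adj := inferInstanceAs (DecidableRel (SimpleGraph.cycleGraph 5).Adj)

def bAdj {d : ℕ} (x y : Fin 5 × Fin d) : Prop := g5.Adj x.1 y.1 ∨ (x.1 = y.1 ∧ x.2 ≠ y.2)

instance {d : ℕ} (x y : Fin 5 × Fin d) : Decidable (bAdj x y) := by unfold bAdj; infer_instance

def Rr : Fin 5 → ℤ := ![1, -1, 1, 0, -1]

theorem Rr_sum : ∀ a b : Fin 5, ∑ z : Fin 5, Rr (a - z) * Rr (b - z) =
    if a = b then 4 else if g5.Adj a b then -3 else 1 := by decide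

noncomputable def LL (d : ℕ) (z : ℝ) (x y : Fin 5 × Fin d) : ℝ :=
  if x = y then 7 * d else if bAdj x y then 0 else 4 * z

theorem LL_nonneg (d : ℕ) (z : ℝ) (hz : 0 ≤ z) (x y : Fin 5 × Fin d) : 0 ≤ LL d z x y := by
  unfold LL; split_ifs <;> positivity

theorem LL_gram (d : ℕ) (hd : 0 < d) (n : ℕ) (U : Finset (Fin n → Fin 5 × Fin d)) :
    3 ^ n * (U.card : ℝ) ^ 2 ≤ ∑ x ∈ U, ∑ y ∈ U, ∏ k, LL d 1 (x k) (y k) := by
  have hd' : (0 : ℝ) < d := by exact_mod_cast hd
  let c : Option (Fin 5 ⊕ (Fin 5 × Fin d)) → ℝ := fun i =>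
    match i with
    | none => 3
    | some (Sum.inl _) => 1
    | some (Sum.inr _) => 7 / d
  let u : Option (Fin 5 ⊕ (Fin 5 × Fin d)) → Fin 5 × Fin d → ℝ := fun i x =>
    match i with
    | none => 1
    | some (Sum.inl z) => Rr (x.1 - z)
    | some (Sum.inr p) => (if x.1 = p.1 then 1 else 0) * (d * (if x.2 = p.2 then 1 else 0) - 1)
  refine gram_pow c ?_ u none (fun _ => rfl) _ ?_ n U
  · rintro (_ | _ | _) <;> simp only [c] <;> positivity
  · rintro ⟨a, s⟩ ⟨b, t⟩
    rw [Fintype.sum_option, Fintype.sum_sum_type, Fintype.sum_prod_type]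
    simp only [c, u]
    have h1 : ∑ z : Fin 5, (1 : ℝ) * (Rr (a - z) : ℝ) * (Rr (b - z) : ℝ) =
        if a = b then 4 else if g5.Adj a b then -3 else 1 := by
      have := congrArg (Int.cast : ℤ → ℝ) (Rr_sum a b)
      push_cast at this
      simpa using this
    have h2 : ∑ w : Fin d, ((d : ℝ) * (if s = w then 1 else 0) - 1) *
        (d * (if t = w then 1 else 0) - 1) = d * (d * (if s = t then 1 else 0) - 1) := by
      have : ∀ w : Fin d, ((d : ℝ) * (if s = w then 1 else 0) - 1) *
        (d * (if t = w then 1 else 0) - 1) = (if s = w then (d : ℝ) * d * (if s = t then 1 else 0) else 0)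
          - (if s = w then (d : ℝ) else 0) - (if t = w then (d : ℝ) else 0) + 1 := by
        intro w
        by_cases h1 : s = w <;> by_cases h2 : t = w
        · subst h1; subst h2; simp; ring
        · subst h1; simp [h2, Ne.symm h2]; ring
        · subst h2; simp [h1]; ring
        · simp [h1, h2]
      simp only [this, sum_add_distrib, sum_sub_distrib, sum_ite_eq, mem_univ, if_true,
        sum_const, card_univ, Fintype.card_fin, nsmul_eq_mul]
      ring
    have h3 : ∑ v : Fin 5, ∑ w : Fin d, (7 / d : ℝ) *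
        ((if a = v then 1 else 0) * (d * (if s = w then 1 else 0) - 1)) *
        ((if b = v then 1 else 0) * (d * (if t = w then 1 else 0) - 1)) =
        if a = b then (7 : ℝ) * (d * (if s = t then 1 else 0) - 1) else 0 := by
      have : ∀ v : Fin 5, ∑ w : Fin d, (7 / d : ℝ) *
        ((if a = v then 1 else 0) * (d * (if s = w then 1 else 0) - 1)) *
        ((if b = v then 1 else 0) * (d * (if t = w then 1 else 0) - 1)) =
        if a = v then (if a = b then (7 : ℝ) * (d * (if s = t then 1 else 0) - 1) else 0) else 0 := by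
        intro v
        have : ∑ w : Fin d, (7 / d : ℝ) *
          ((if a = v then 1 else 0) * (d * (if s = w then 1 else 0) - 1)) *
          ((if b = v then 1 else 0) * (d * (if t = w then 1 else 0) - 1)) =
          (7 / d : ℝ) * ((if a = v then 1 else 0) * (if b = v then 1 else 0)) *
          ∑ w : Fin d, ((d : ℝ) * (if s = w then 1 else 0) - 1) *
            (d * (if t = w then 1 else 0) - 1) := by
          rw [mul_sum]; exact sum_congr rfl fun w _ => by ring
        rw [this, h2]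
        by_cases h1 : a = v
        · subst h1
          by_cases h3 : a = b
          · subst h3; simp only [if_true]; field_simp
          · simp [h3, Ne.symm h3]
        · simp [h1]
      simp only [this, sum_ite_eq, mem_univ, if_true]
    rw [h1, h3]
    unfold LL bAdj
    by_cases hab : a = b
    · subst hab
      by_cases hst : s = t
      · subst hst; simp; ring
      · simp [hst]; ring
    · by_cases hadj : g5.Adj a b
      · simp [hab, hadj]
      · simp [hab, hadj]; ring

theorem nonadj_card : ∀ a : Fin 5, (univ.filter fun b => a ≠ b ∧ ¬ g5.Adj a b).card = 2 := by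
  decide

theorem LL_row (d : ℕ) (z : ℝ) (x : Fin 5 × Fin d) : ∑ y, LL d z x y = (7 + 8 * z) * d := by
  obtain ⟨a, s⟩ := x
  have : ∀ y : Fin 5 × Fin d, LL d z (a, s) y = (if (a, s) = y then (7 * d : ℝ) else 0) +
      (if a ≠ y.1 ∧ ¬ g5.Adj a y.1 then 4 * z else 0) := by
    rintro ⟨b, t⟩
    unfold LL bAdj
    by_cases hab : a = b
    · subst hab
      by_cases hst : s = t
      · subst hst; simp
      · simp [hst]
    · by_cases hadj : g5.Adj a b
      · simp [hab, hadj]
      · simp [hab, hadj]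
  simp only [this, sum_add_distrib, sum_ite_eq, mem_univ, if_true]
  rw [Fintype.sum_prod_type]
  have e : ∀ b : Fin 5, ∑ _t : Fin d, (if a ≠ b ∧ ¬ g5.Adj a b then 4 * z else 0) =
      d * (if a ≠ b ∧ ¬ g5.Adj a b then 4 * z else 0) := fun b => by
    rw [sum_const, card_univ, Fintype.card_fin, nsmul_eq_mul]
  simp only [e]
  rw [← mul_sum, ← sum_filter, sum_const, nonadj_card]
  simp; ring

theorem row_bound (K d : ℕ) (hd : d = 5 ^ 100) (x : Fin (100 * K) → Fin 5 × Fin d)
    (X : Finset (Fin (100 * K) → Fin 5 × Fin d)) (hX : X.card ≤ 5 ^ (100 * K)) :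
    ∑ y ∈ X, ∏ k, LL d 1 (x k) (y k) ≤ 2 * (7.42 * (d : ℝ)) ^ (100 * K) := by
  have hd1 : (1 : ℝ) ≤ d := by rw [hd]; exact_mod_cast Nat.one_le_pow _ _ (by norm_num)
  have hd0 : (0 : ℝ) < d := by linarith
  have pt : ∀ y : Fin (100 * K) → Fin 5 × Fin d, ∏ k, LL d 1 (x k) (y k) ≤
      80 ^ K * ∏ k, LL d (1 / 80) (x k) (y k) + (7 * d) ^ (100 * K) * (1 / d) ^ K := by
    intro y
    have p1 : 0 ≤ ∏ k, LL d (1 / 80) (x k) (y k) := prod_nonneg fun k _ => LL_nonneg _ _ (by norm_num) _ _
    rcases le_total (univ.filter fun k => x k ≠ y k).card K with h | h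
    · have : ∏ k, LL d 1 (x k) (y k) = (∏ k, LL d (1 / 80) (x k) (y k)) *
          ∏ k, (if x k ≠ y k then (80 : ℝ) else 1) := by
        rw [← prod_mul_distrib]
        refine prod_congr rfl fun k _ => ?_
        unfold LL
        by_cases h1 : x k = y k
        · simp [h1]
        · simp only [h1, if_false, ne_eq, not_false_eq_true, if_true]
          split_ifs <;> norm_num
      rw [this, ← prod_filter, prod_const]
      have h2 : (80 : ℝ) ^ (univ.filter fun k => x k ≠ y k).card ≤ 80 ^ K :=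
        pow_le_pow_right₀ (by norm_num) h
      have h3 : (0 : ℝ) ≤ (7 * d) ^ (100 * K) * (1 / d) ^ K := by positivity
      nlinarith
    · have : ∏ k, LL d 1 (x k) (y k) ≤ ∏ k, ((7 * d : ℝ) *
          (if x k ≠ y k then (1 / d : ℝ) else 1)) := by
        refine prod_le_prod (fun k _ => LL_nonneg _ _ (by norm_num) _ _) fun k _ => ?_
        unfold LL
        by_cases h1 : x k = y k
        · simp [h1]
        · simp only [h1, if_false, ne_eq, not_false_eq_true, if_true]
          have : (7 * d : ℝ) * (1 / d) = 7 := by field_simp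
          rw [this]
          split_ifs <;> norm_num
      rw [prod_mul_distrib, ← prod_filter, prod_const, prod_const, card_univ, Fintype.card_fin] at this
      have h2 : (1 / d : ℝ) ^ (univ.filter fun k => x k ≠ y k).card ≤ (1 / d) ^ K :=
        pow_le_pow_of_le_one (by positivity) (by rw [div_le_one hd0]; exact hd1) h
      have h3 : (0 : ℝ) ≤ 80 ^ K * ∏ k, LL d (1 / 80) (x k) (y k) := by positivity
      have h4 : (0 : ℝ) ≤ (7 * d) ^ (100 * K) := by positivity
      have h5 := mul_le_mul_of_nonneg_left h2 h4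
      linarith
  refine (sum_le_sum fun y _ => pt y).trans ?_
  rw [sum_add_distrib, ← mul_sum, sum_const, nsmul_eq_mul]
  have s1 : ∑ y ∈ X, ∏ k, LL d (1 / 80) (x k) (y k) ≤ (7.1 * d) ^ (100 * K) := by
    refine (sum_le_sum_of_subset_of_nonneg (subset_univ X) fun y _ _ =>
      prod_nonneg fun k _ => LL_nonneg _ _ (by norm_num) _ _).trans ?_
    rw [← Fintype.piFinset_univ, ← Finset.prod_univ_sum (fun _ => univ) (fun k y => LL d (1 / 80) (x k) y)]
    simp only [LL_row, prod_const, card_univ, Fintype.card_fin]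
    norm_num
  have s2 : (80 : ℝ) ^ K * (7.1 * d) ^ (100 * K) ≤ (7.42 * d) ^ (100 * K) := by
    rw [pow_mul, pow_mul, ← mul_pow]
    refine pow_le_pow_left₀ (by positivity) ?_ _
    rw [mul_pow, mul_pow, ← mul_assoc]
    refine mul_le_mul_of_nonneg_right (by norm_num) (by positivity)
  have s3 : (X.card : ℝ) * ((7 * d) ^ (100 * K) * (1 / d) ^ K) ≤ (7.42 * d) ^ (100 * K) := by
    have h1 : (X.card : ℝ) ≤ d ^ K := by
      have e : d ^ K = 5 ^ (100 * K) := by rw [hd, pow_mul]
      exact_mod_cast hX.trans e.ge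
    have h2 : (d : ℝ) ^ K * (1 / d) ^ K = 1 := by rw [← mul_pow]; field_simp; simp
    have h3 : ((7 : ℝ) * d) ^ (100 * K) ≤ (7.42 * d) ^ (100 * K) :=
      pow_le_pow_left₀ (by positivity) (by nlinarith) _
    calc (X.card : ℝ) * ((7 * d) ^ (100 * K) * (1 / d) ^ K)
        ≤ d ^ K * ((7 * d) ^ (100 * K) * (1 / d) ^ K) :=
          mul_le_mul_of_nonneg_right h1 (by positivity)
      _ = (7 * d) ^ (100 * K) := by rw [mul_left_comm, h2, mul_one]
      _ ≤ _ := h3
  have : (80 : ℝ) ^ K * ∑ y ∈ X, ∏ k, LL d (1 / 80) (x k) (y k) ≤ 80 ^ K * (7.1 * d) ^ (100 * K) :=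
    mul_le_mul_of_nonneg_left s1 (by positivity)
  linarith

theorem indep5 : ∀ s : Finset (Fin 5), (∀ a ∈ s, ∀ b ∈ s, ¬ g5.Adj a b) → s.card ≤ 2 := by
  decide +kernel

theorem indep_pow (n : ℕ) (F : Finset (Fin n → Fin 5))
    (h : ∀ x ∈ F, ∀ y ∈ F, ∀ i, ¬ g5.Adj (x i) (y i)) : F.card ≤ 2 ^ n := by
  have h1 : F ⊆ Fintype.piFinset fun i => F.image fun x => x i := by
    intro x hx
    rw [Fintype.mem_piFinset]
    exact fun i => mem_image_of_mem _ hx
  refine (card_le_card h1).trans ?_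
  rw [Fintype.card_piFinset]
  calc ∏ i, (F.image fun x => x i).card ≤ ∏ _i : Fin n, 2 := by
        refine prod_le_prod' fun i _ => indep5 _ ?_
        intro a ha b hb
        obtain ⟨x, hx, rfl⟩ := mem_image.1 ha
        obtain ⟨y, hy, rfl⟩ := mem_image.1 hb
        exact h x hx y hy i
    _ = 2 ^ n := by simp

theorem count (K M r d n : ℕ) (hd : d = 5 ^ 100) (hn : n = 100 * K)
    (f : Fin M × (Fin n → Fin 5) → Fin r × (Fin n → Fin 5 × Fin d))
    (hf : ∀ p q, (p.1 ≠ q.1 ∨ ∃ i, g5.Adj (p.2 i) (q.2 i)) →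
      ((f p).1 ≠ (f q).1 ∨ ∃ i, bAdj ((f p).2 i) ((f q).2 i))) :
    (M : ℝ) * 7.5 ^ n ≤ 2 * r * (7.42 * (d : ℝ)) ^ n := by
  classical
  have rb : ∀ (x : Fin n → Fin 5 × Fin d) (X : Finset (Fin n → Fin 5 × Fin d)), X.card ≤ 5 ^ n →
      ∑ y ∈ X, ∏ k, LL d 1 (x k) (y k) ≤ 2 * (7.42 * (d : ℝ)) ^ n := by
    subst hn
    exact row_bound K d hd
  set B : ℝ := (7.42 * (d : ℝ)) ^ n with hB
  have B0 : 0 ≤ B := by positivity
  let U : Fin r → Finset (Fin n → Fin 5 × Fin d) := fun c =>
    univ.filter fun y => ∃ p, f p = (c, y)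
  have hU : ∀ c, 3 ^ n * ((U c).card : ℝ) ≤ 2 * B := by
    intro c
    have h1 := LL_gram d (by rw [hd]; positivity) n (U c)
    have h2 : ∀ x ∈ U c, ∑ y ∈ U c, ∏ k, LL d 1 (x k) (y k) ≤ 2 * B := by
      intro x hx
      obtain ⟨p, hp⟩ := (mem_filter.1 hx).2
      refine le_trans ?_ (rb x (univ.image fun x' => (f (p.1, x')).2) ?_)
      · rw [← sum_filter_ne_zero (s := U c)]
        refine sum_le_sum_of_subset_of_nonneg ?_ fun y _ _ =>
          prod_nonneg fun k _ => LL_nonneg _ _ (by norm_num) _ _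
        intro y hy
        obtain ⟨hy1, hy2⟩ := mem_filter.1 hy
        obtain ⟨q, hq⟩ := (mem_filter.1 hy1).2
        have hpq : p.1 = q.1 := by
          by_contra hc
          rcases hf p q (Or.inl hc) with h | ⟨i, h⟩
          · rw [hp, hq] at h; exact h rfl
          · rw [hp, hq] at h
            apply hy2
            refine prod_eq_zero (mem_univ i) ?_
            unfold LL
            have hne : x i ≠ y i := by
              intro e
              simp only [e] at h
              rcases h with h | h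
              · exact g5.irrefl h
              · exact h.2 rfl
            simp only at h
            simp [hne, h]
        refine mem_image.2 ⟨q.2, mem_univ _, ?_⟩
        rw [hpq]
        simp [hq]
      · refine card_image_le.trans ?_
        simp
    have h3 := h1.trans (sum_le_sum h2)
    rw [sum_const, nsmul_eq_mul] at h3
    rcases Nat.eq_zero_or_pos (U c).card with h0 | h0
    · rw [h0]; simp only [Nat.cast_zero, mul_zero]; positivity
    · have : (0 : ℝ) < (U c).card := by exact_mod_cast h0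
      nlinarith
  have hfib : ∀ t, (univ.filter fun p => f p = t).card ≤ 2 ^ n := by
    intro t
    have hna : ∀ p q, f p = t → f q = t → p.1 = q.1 ∧ ∀ i, ¬ g5.Adj (p.2 i) (q.2 i) := by
      intro p q hp hq
      by_contra hc
      have : p.1 ≠ q.1 ∨ ∃ i, g5.Adj (p.2 i) (q.2 i) := by
        by_cases h1 : p.1 = q.1
        · right; by_contra h2; push Not at h2; exact hc ⟨h1, h2⟩
        · exact Or.inl h1
      rcases hf p q this with h | ⟨i, h⟩
      · rw [hp, hq] at h; exact h rfl
      · rw [hp, hq] at h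
        rcases h with h | h
        · exact g5.irrefl h
        · exact h.2 rfl
    rw [← card_image_of_injOn (f := Prod.snd)]
    · refine indep_pow n _ ?_
      intro x hx y hy
      obtain ⟨p, hp, rfl⟩ := mem_image.1 hx
      obtain ⟨q, hq, rfl⟩ := mem_image.1 hy
      exact (hna p q (mem_filter.1 hp).2 (mem_filter.1 hq).2).2
    · intro p hp q hq e
      exact Prod.ext (hna p q (mem_filter.1 (mem_coe.1 hp)).2 (mem_filter.1 (mem_coe.1 hq)).2).1 e
  have h1 : M * 5 ^ n ≤ 2 ^ n * (univ.image f).card := by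
    have := card_le_mul_card_image (f := f) univ (2 ^ n) fun t _ => hfib t
    simpa using this
  have h2 : (univ.image f).card ≤ ∑ c, (U c).card := by
    have : univ.image f ⊆ univ.biUnion fun c => (U c).image fun y => (c, y) := by
      intro t ht
      obtain ⟨p, _, rfl⟩ := mem_image.1 ht
      exact mem_biUnion.2 ⟨(f p).1, mem_univ _, mem_image.2 ⟨(f p).2, mem_filter.2
        ⟨mem_univ _, p, rfl⟩, rfl⟩⟩
    exact (card_le_card this).trans (card_biUnion_le.trans (sum_le_sum fun c _ => card_image_le))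
  have h3 : (M : ℝ) * 5 ^ n ≤ 2 ^ n * ∑ c, ((U c).card : ℝ) := by
    exact_mod_cast h1.trans (Nat.mul_le_mul_left _ h2)
  have h4 : 3 ^ n * ∑ c, ((U c).card : ℝ) ≤ r * (2 * B) := by
    rw [mul_sum]
    refine (sum_le_sum fun c _ => hU c).trans ?_
    simp
  have e : (7.5 : ℝ) ^ n * 2 ^ n = 5 ^ n * 3 ^ n := by rw [← mul_pow, ← mul_pow]; norm_num
  have p2 : (0 : ℝ) < 2 ^ n := by positivity
  have p3 : (0 : ℝ) < 3 ^ n := by positivity
  refine le_of_mul_le_mul_right ?_ p2
  calc (M : ℝ) * 7.5 ^ n * 2 ^ n = (M * 5 ^ n) * 3 ^ n := by rw [mul_assoc, e]; ring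
    _ ≤ (2 ^ n * ∑ c, ((U c).card : ℝ)) * 3 ^ n := mul_le_mul_of_nonneg_right h3 p3.le
    _ = 2 ^ n * (3 ^ n * ∑ c, ((U c).card : ℝ)) := by ring
    _ ≤ 2 ^ n * (r * (2 * B)) := mul_le_mul_of_nonneg_left h4 p2.le
    _ = _ := by ring

end Pool.Agent.H.MP_4c8f29_co
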